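import Mathlib
import Pool.Agent.W522.U.B1
import Pool.Agent.Y90.SL2
import Pool.Agent.Y90.Clo

/-!
# Forms killed by a product of special linear and symplectic Lie algebras, I

`Y` is the direct sum of subspaces given by projectors `P i`, with an alternating form `ω` for which
the adjoint of `P i` is `P (st i)`.
-/

set_option linter.unusedSectionVars false

namespace Pool.Agent.L5helper73.CC

open Module Finset Pool.Agent.H204R3.SP Pool.Agent.H204R3.GP Pool.Agent.Y90

noncomputable section

variable {K : Type*} [Field K] [CharZero K] {Y : Type*} [AddCommGroup Y] [Module K Y]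
  [FiniteDimensional K Y] {I : Type*} [Fintype I] [DecidableEq I]
  (ω : Y →ₗ[K] Y →ₗ[K] K) (P : I → Y →ₗ[K] Y) (st : I → I)

/-- The data: projectors with sum one, an alternating form for which `P (st i)` is the adjoint of
`P i`. -/
structure Dat : Prop where
  alt : ∀ u, ω u u = 0
  nd : ∀ u, (∀ v, ω u v = 0) → u = 0
  inv : ∀ i, st (st i) = i
  id : ∀ i u, P i (P i u) = P i u
  or : ∀ i j, i ≠ j → ∀ u, P i (P j u) = 0
  sum : ∀ u, ∑ i, P i u = u
  adj : ∀ i u v, ω (P i u) v = ω u (P (st i) v)

/-- The operators which preserve the pieces and are skew for the form. -/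
structure Good (X : Y →ₗ[K] Y) : Prop where
  com : ∀ i u, X (P i u) = P i (X u)
  skew : ∀ u v, ω (X u) v = -ω u (X v)

variable {κ : Type*} [Fintype κ] [DecidableEq κ]

/-- The action of an operator on a form. -/
def act (φ : MultilinearMap K (fun _ : κ => Y) K) (X : Y →ₗ[K] Y) (v : κ → Y) : K :=
  ∑ k, φ (Function.update v k (X (v k)))

theorem act_add (φ : MultilinearMap K (fun _ : κ => Y) K) (X X' : Y →ₗ[K] Y) (v : κ → Y) :
    act φ (X + X') v = act φ X v + act φ X' v := by
  unfold act
  rw [← Finset.sum_add_distrib]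
  refine Finset.sum_congr rfl fun k _ => ?_
  rw [LinearMap.add_apply, MultilinearMap.map_update_add]

theorem act_smul (φ : MultilinearMap K (fun _ : κ => Y) K) (c : K) (X : Y →ₗ[K] Y) (v : κ → Y) :
    act φ (c • X) v = c * act φ X v := by
  unfold act
  rw [Finset.mul_sum]
  refine Finset.sum_congr rfl fun k _ => ?_
  rw [LinearMap.smul_apply, MultilinearMap.map_update_smul, smul_eq_mul]

theorem act_zero (φ : MultilinearMap K (fun _ : κ => Y) K) (v : κ → Y) :
    act φ (0 : Y →ₗ[K] Y) v = 0 := by
  have h := act_smul φ (0 : K) (0 : Y →ₗ[K] Y) v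
  rw [zero_smul, zero_mul] at h
  exact h

theorem act_sum (φ : MultilinearMap K (fun _ : κ => Y) K) {J : Type*} (s : Finset J)
    (X : J → Y →ₗ[K] Y) (v : κ → Y) : act φ (∑ j ∈ s, X j) v = ∑ j ∈ s, act φ (X j) v := by
  classical
  induction s using Finset.induction_on with
  | empty => rw [Finset.sum_empty, Finset.sum_empty, act_zero]
  | insert a s ha ih => rw [Finset.sum_insert ha, Finset.sum_insert ha, act_add, ih]

/-- The number of variables of a type. -/
def cn (t : κ → I) (i : I) : ℕ := (Finset.univ.filter fun k => t k = i).card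

/-- A form of type `t`. -/
def OfType (φ : MultilinearMap K (fun _ : κ => Y) K) (t : κ → I) : Prop :=
  ∀ v, φ (fun k => P (t k) (v k)) = φ v

/-- The operators `P i - P (st i)`. -/
def D (i : I) : Y →ₗ[K] Y := P i - P (st i)

variable {ω P st}

theorem Dat.skew (h : Dat ω P st) (u v : Y) : ω u v = -ω v u := by
  have h1 := h.alt (u + v)
  rw [map_add ω, LinearMap.add_apply, map_add, map_add, h.alt, h.alt, zero_add, add_zero] at h1
  exact eq_neg_of_add_eq_zero_left h1

theorem Dat.good_D (h : Dat ω P st) (i : I) : Good ω P (D P st i) := by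
  constructor
  · intro j u
    have key : ∀ i j, P i (P j u) = P j (P i u) := by
      intro i j
      by_cases hij : i = j
      · rw [hij]
      · rw [h.or i j hij, h.or j i (Ne.symm hij)]
    simp only [D, LinearMap.sub_apply, map_sub]
    rw [key i j, key (st i) j]
  · intro u v
    simp only [D, LinearMap.sub_apply, map_sub]
    rw [h.adj, h.adj, h.inv]
    ring

theorem Dat.PD (h : Dat ω P st) (i j : I) (u : Y) :
    P j (D P st i u) = (((if j = i then 1 else 0) - (if j = st i then 1 else 0) : K)) • P j u := by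
  simp only [D, LinearMap.sub_apply, map_sub, sub_smul]
  congr 1
  · by_cases hij : j = i
    · rw [if_pos hij, hij, h.id, one_smul]
    · rw [if_neg hij, h.or j i hij, zero_smul]
  · by_cases hij : j = st i
    · rw [if_pos hij, ← hij, h.id, one_smul]
    · rw [if_neg hij, h.or j (st i) hij, zero_smul]

/-- The action of `P i - P (st i)` on a form of type `t`. -/
theorem Dat.act_D (h : Dat ω P st) {φ : MultilinearMap K (fun _ : κ => Y) K} {t : κ → I}
    (ht : OfType P φ t) (i : I) (v : κ → Y) :
    act φ (D P st i) v = ((cn t i : K) - cn t (st i)) * φ v := by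
  unfold act
  have h1 : ∀ k, φ (Function.update v k (D P st i (v k))) =
      ((if t k = i then 1 else 0) - (if t k = st i then 1 else 0)) * φ v := by
    intro k
    rw [← ht (Function.update v k (D P st i (v k)))]
    have h2 : (fun l => P (t l) (Function.update v k (D P st i (v k)) l)) =
        Function.update (fun l => P (t l) (v l)) k (P (t k) (D P st i (v k))) := by
      funext l
      by_cases hl : l = k
      · subst hl
        rw [Function.update_self, Function.update_self]
      · rw [Function.update_of_ne hl, Function.update_of_ne hl]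
    rw [h2, h.PD, MultilinearMap.map_update_smul, smul_eq_mul]
    congr 1
    have h3 : Function.update (fun l => P (t l) (v l)) k (P (t k) (v k)) =
        fun l => P (t l) (v l) := Function.update_eq_self k (fun l => P (t l) (v l))
    rw [h3, ht]
  rw [Finset.sum_congr rfl (fun k _ => h1 k), ← Finset.sum_mul, Finset.sum_sub_distrib,
    Finset.sum_boole, Finset.sum_boole]
  rfl

section basis

variable {n : ℕ} (e : Basis (Fin n ⊕ Fin n) K Y) (lab : Fin n ⊕ Fin n → I)

/-- An adapted symplectic basis. -/
structure Adp (ω : Y →ₗ[K] Y →ₗ[K] K) (P : I → Y →ₗ[K] Y) (st : I → I)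
    (e : Basis (Fin n ⊕ Fin n) K Y) (lab : Fin n ⊕ Fin n → I) : Prop where
  P : ∀ i x, P i (e x) = if lab x = i then e x else 0
  st : ∀ x, lab x.swap = st (lab x)
  ze : ∀ x y, y ≠ x.swap → ω (e x) (e y) = 0
  ne : ∀ x, ω (e x) (e x.swap) ≠ 0

theorem Dat.exists_adp (h : Dat ω P st) : ∃ (n : ℕ) (e : Basis (Fin n ⊕ Fin n) K Y)
    (lab : Fin n ⊕ Fin n → I), Adp ω P st e lab := by
  have hF : ∀ c d, d ≠ st c → ∀ u ∈ LinearMap.range (P c), ∀ v ∈ LinearMap.range (P d),
      ω u v = 0 := by
    rintro c d hd _ ⟨u, rfl⟩ _ ⟨v, rfl⟩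
    rw [h.adj, h.or _ _ (Ne.symm hd), map_zero]
  obtain ⟨n, e, lab, h1, h2, h3, h4⟩ := Pool.Agent.W522.U.exists_sb ω h.skew h.alt
    (fun i => LinearMap.range (P i)) st h.inv hF h.nd (by
      rw [eq_top_iff]
      intro u _
      rw [← h.sum u]
      refine Submodule.sum_mem _ fun i _ => ?_
      exact (le_iSup (fun i => LinearMap.range (P i)) i) ⟨u, rfl⟩)
  refine ⟨n, e, lab, fun i x => ?_, h2, h3, h4⟩
  obtain ⟨u, hu⟩ := h1 x
  rw [← hu]
  by_cases hx : lab x = i
  · rw [if_pos hx, hx, h.id]
  · rw [if_neg hx, h.or _ _ (Ne.symm hx)]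

variable {e lab}

theorem Adp.repr (a : Adp ω P st e lab) (u : Y) (x : Fin n ⊕ Fin n) :
    e.repr u x * ω (e x) (e x.swap) = ω u (e x.swap) := by
  conv_rhs => rw [← e.sum_repr u]
  rw [map_sum, LinearMap.sum_apply, Finset.sum_eq_single x]
  · rw [map_smul, LinearMap.smul_apply, smul_eq_mul]
  · intro y _ hy
    rw [map_smul, LinearMap.smul_apply, a.ze y x.swap, smul_zero]
    intro h
    apply hy
    have h1 := congrArg Sum.swap h
    rw [Sum.swap_swap, Sum.swap_swap] at h1
    exact h1.symm
  · intro hx
    exact absurd (Finset.mem_univ _) hx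

theorem trace_eq (X : Y →ₗ[K] Y) : LinearMap.trace K Y X = ∑ x, e.repr (X (e x)) x := by
  rw [LinearMap.trace_eq_matrix_trace K e X, Matrix.trace]
  refine Finset.sum_congr rfl fun x _ => ?_
  rw [Matrix.diag_apply, LinearMap.toMatrix_apply]

theorem Dat.trace_adj (h : Dat ω P st) {Z Z' : Y →ₗ[K] Y} (hZ : ∀ u v, ω (Z u) v = ω u (Z' v)) :
    LinearMap.trace K Y Z = LinearMap.trace K Y Z' := by
  obtain ⟨n, e, lab, a⟩ := h.exists_adp
  rw [trace_eq (e := e), trace_eq (e := e)]
  refine Finset.sum_equiv (Equiv.sumComm (Fin n) (Fin n)) (fun _ => by simp) fun x _ => ?_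
  change _ = e.repr (Z' (e x.swap)) x.swap
  have h1 := a.repr (Z (e x)) x
  have h2 := a.repr (Z' (e x.swap)) x.swap
  rw [Sum.swap_swap] at h2
  rw [hZ] at h1
  have h3 := a.ne x
  have h5 := h.skew (e x) (Z' (e x.swap))
  have h6 := h.skew (e x.swap) (e x)
  have h4 : (e.repr (Z (e x)) x - e.repr (Z' (e x.swap)) x.swap) * ω (e x) (e x.swap) = 0 := by
    linear_combination h1 + h5 + h2 - (e.repr (Z' (e x.swap)) x.swap) * h6
  exact sub_eq_zero.1 ((mul_eq_zero.1 h4).resolve_right h3)

/-- The trace of `X` on the piece `i`. -/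
def tr (P : I → Y →ₗ[K] Y) (X : Y →ₗ[K] Y) (i : I) : K := LinearMap.trace K Y (X ∘ₗ P i)

/-- The dimension of the piece `i`. -/
def dm (P : I → Y →ₗ[K] Y) (i : I) : K := LinearMap.trace K Y (P i)

theorem Adp.dm (a : Adp ω P st e lab) (i : I) :
    dm P i = ((Finset.univ.filter fun x => lab x = i).card : K) := by
  unfold CC.dm
  rw [trace_eq (e := e), ← Finset.sum_boole]
  refine Finset.sum_congr rfl fun x _ => ?_
  rw [a.P]
  split_ifs with h
  · rw [Basis.repr_self, Finsupp.single_eq_same]
  · rw [map_zero, Finsupp.zero_apply]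

theorem Dat.tr_st (h : Dat ω P st) {X : Y →ₗ[K] Y} (hX : Good ω P X) (i : I) :
    tr P X (st i) = -tr P X i := by
  unfold tr
  rw [← map_neg]
  refine h.trace_adj fun u v => ?_
  rw [LinearMap.comp_apply, hX.skew, h.adj, h.inv, LinearMap.neg_apply, LinearMap.comp_apply,
    map_neg, hX.com]

theorem Dat.dm_st (h : Dat ω P st) (i : I) : dm P (st i) = dm P i := by
  unfold dm
  refine h.trace_adj fun u v => ?_
  rw [h.adj, h.inv]

theorem Dat.eq_zero (h : Dat ω P st) {i : I} (hi : dm P i = 0) : P i = 0 := by
  obtain ⟨n, e, lab, a⟩ := h.exists_adp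
  rw [a.dm, Nat.cast_eq_zero, Finset.card_eq_zero, Finset.filter_eq_empty_iff] at hi
  refine e.ext fun x => ?_
  rw [a.P, if_neg (hi (Finset.mem_univ x)), LinearMap.zero_apply]

theorem tr_D (h : Dat ω P st) (i j : I) :
    tr P (D P st i) j = ((if j = i then 1 else 0) - (if j = st i then 1 else 0)) * dm P j := by
  unfold tr dm
  have h1 : D P st i ∘ₗ P j = ((if j = i then 1 else 0) - (if j = st i then 1 else 0) : K) •
      P j := by
    refine LinearMap.ext fun u => ?_
    rw [LinearMap.comp_apply, (h.good_D i).com, h.PD, LinearMap.smul_apply]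
  rw [h1, map_smul, smul_eq_mul]

/-- The correction of an operator to an operator without traces. -/
theorem Dat.exists_corr (h : Dat ω P st) {X : Y →ₗ[K] Y} (hX : Good ω P X) :
    Good ω P (X - (1 / 2 : K) • ∑ i, (tr P X i / dm P i) • D P st i) ∧
    ∀ j, tr P (X - (1 / 2 : K) • ∑ i, (tr P X i / dm P i) • D P st i) j = 0 := by
  constructor
  · constructor
    · intro i u
      simp only [LinearMap.sub_apply, LinearMap.smul_apply, LinearMap.sum_apply, map_sub,
        map_smul, map_sum, hX.com, (h.good_D _).com]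
    · intro u v
      simp only [LinearMap.sub_apply, LinearMap.smul_apply, LinearMap.sum_apply, map_sub,
        map_smul, map_sum, hX.skew, (h.good_D _).skew, smul_eq_mul, neg_sub, mul_neg,
        Finset.sum_neg_distrib]
      ring
  · intro j
    have h1 : tr P (X - (1 / 2 : K) • ∑ i, (tr P X i / dm P i) • D P st i) j =
        tr P X j - (1 / 2) * ∑ i, (tr P X i / dm P i) * tr P (D P st i) j := by
      unfold tr
      have h0 : (X - (1 / 2 : K) • ∑ i, (LinearMap.trace K Y (X ∘ₗ P i) / dm P i) • D P st i) ∘ₗ P j =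
          X ∘ₗ P j - (1 / 2 : K) • ∑ i, (LinearMap.trace K Y (X ∘ₗ P i) / dm P i) •
            (D P st i ∘ₗ P j) := by
        refine LinearMap.ext fun u => ?_
        simp only [LinearMap.comp_apply, LinearMap.sub_apply, LinearMap.smul_apply,
          LinearMap.sum_apply]
      rw [h0, map_sub, map_smul, map_sum, smul_eq_mul]
      congr 2
      refine Finset.sum_congr rfl fun i _ => ?_
      rw [map_smul, smul_eq_mul]
    rw [h1]
    by_cases hj : dm P j = 0
    · have h2 : tr P X j = 0 := by
        unfold tr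
        rw [h.eq_zero hj, LinearMap.comp_zero, map_zero]
      rw [h2, Finset.sum_eq_zero, mul_zero, sub_zero]
      intro i _
      rw [tr_D h, hj, mul_zero, mul_zero]
    · have h2 : ∑ i, (tr P X i / dm P i) * tr P (D P st i) j =
          tr P X j - tr P X (st j) := by
        have h3 : ∀ i, (tr P X i / dm P i) * tr P (D P st i) j =
            (if j = i then tr P X j else 0) - (if st j = i then tr P X (st j) else 0) := by
          intro i
          rw [tr_D h]
          have h4 : (j = st i) ↔ (st j = i) := by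
            constructor
            · intro h5
              rw [h5, h.inv]
            · intro h5
              rw [← h5, h.inv]
          by_cases h5 : j = i <;> by_cases h6 : st j = i
          · rw [if_pos h5, if_pos h5, if_pos (h4.2 h6), if_pos h6, h6, h5]
            ring
          · rw [if_pos h5, if_pos h5, if_neg (fun h' => h6 (h4.1 h')), if_neg h6, ← h5]
            field_simp
            ring
          · rw [if_neg h5, if_neg h5, if_pos (h4.2 h6), if_pos h6, ← h6, h.dm_st]
            field_simp
            ring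
          · rw [if_neg h5, if_neg h5, if_neg (fun h' => h6 (h4.1 h')), if_neg h6]
            ring
        rw [Finset.sum_congr rfl (fun i _ => h3 i), Finset.sum_sub_distrib, Finset.sum_ite_eq,
          Finset.sum_ite_eq, if_pos (Finset.mem_univ _), if_pos (Finset.mem_univ _)]
      rw [h2, h.tr_st hX]
      ring

/-- **The action of an operator which preserves the pieces and is skew**, on a form of type `t` which
is killed by the operators of trace zero on the pieces. -/
theorem Dat.act_eq (h : Dat ω P st) {φ : MultilinearMap K (fun _ : κ => Y) K} {t : κ → I}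
    (ht : OfType P φ t)
    (hφ : ∀ X, Good ω P X → (∀ i, tr P X i = 0) → ∀ v, act φ X v = 0)
    {X : Y →ₗ[K] Y} (hX : Good ω P X) (v : κ → Y) :
    act φ X v = (1 / 2) * (∑ i, (tr P X i / dm P i) * ((cn t i : K) - cn t (st i))) * φ v := by
  obtain ⟨h1, h2⟩ := h.exists_corr hX
  have h3 := hφ _ h1 h2 v
  have h4 : X = (X - (1 / 2 : K) • ∑ i, (tr P X i / dm P i) • D P st i) +
      (1 / 2 : K) • ∑ i, (tr P X i / dm P i) • D P st i := by
    rw [sub_add_cancel]
  conv_lhs => rw [h4]
  rw [act_add, h3, zero_add, act_smul, act_sum, mul_assoc, Finset.sum_mul]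
  congr 1
  refine Finset.sum_congr rfl fun i _ => ?_
  rw [act_smul, h.act_D ht]
  ring

end basis

end

end Pool.Agent.L5helper73.CC
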