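import Mathlib
import Pool.Agent.L5helper73.CC.A1

/-!
# Forms killed by a product of special linear and symplectic Lie algebras, II

The first fundamental theorem: such a form of type `t` is a combination of products of pairings and
of determinants.
-/

set_option linter.unusedSectionVars false

namespace Pool.Agent.L5helper73.CC

open Module Finset Pool.Agent.H204R3.SP Pool.Agent.H204R3.GP Pool.Agent.Y90

noncomputable section

variable {K : Type*} [Field K] [CharZero K] {Y : Type*} [AddCommGroup Y] [Module K Y]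
  [FiniteDimensional K Y] {I : Type} [Fintype I] [DecidableEq I]
  {ω : Y →ₗ[K] Y →ₗ[K] K} {P : I → Y →ₗ[K] Y} {st : I → I}
  {κ : Type} [Fintype κ] [DecidableEq κ]
  {n : ℕ} {e : Basis (Fin n ⊕ Fin n) K Y} {lab : Fin n ⊕ Fin n → I}

/-- The elementary operators. -/
def SS (ω : Y →ₗ[K] Y →ₗ[K] K) (u v : Y) : Y →ₗ[K] Y := (ω u).smulRight v + (ω v).smulRight u

theorem SS_apply (u v z : Y) : SS ω u v z = ω u z • v + ω v z • u := rfl

theorem Adp.good_SS (h : Dat ω P st) (a : Adp ω P st e lab) {b c : Fin n ⊕ Fin n}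
    (hbc : lab b.swap = lab c) : Good ω P (SS ω (e b) (e c)) := by
  have hcb : lab c.swap = lab b := by rw [a.st, ← hbc, a.st, h.inv]
  constructor
  · intro i u
    have key : (SS ω (e b) (e c)) ∘ₗ P i = P i ∘ₗ SS ω (e b) (e c) := by
      refine e.ext fun z => ?_
      rw [LinearMap.comp_apply, LinearMap.comp_apply, a.P, SS_apply (e b) (e c) (e z), map_add,
        map_smul, map_smul, a.P, a.P]
      by_cases h1 : z = b.swap
      · by_cases h2 : z = c.swap
        · have h3 : b = c := by
            have h4 := congrArg Sum.swap (h1.symm.trans h2)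
            rwa [Sum.swap_swap, Sum.swap_swap] at h4
          subst h3
          have h5 : lab z = lab b := by rw [h1, hbc]
          rw [h5]
          split_ifs with h6
          · rfl
          · rw [map_zero, smul_zero, add_zero]
        · have h5 : lab z = lab c := by rw [h1, hbc]
          rw [a.ze c z h2, zero_smul, add_zero, h5]
          split_ifs with h6
          · rw [SS_apply, a.ze c z h2, zero_smul, add_zero]
          · rw [map_zero, smul_zero]
      · rw [a.ze b z h1, zero_smul, zero_add]
        by_cases h2 : z = c.swap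
        · have h5 : lab z = lab b := by rw [h2, hcb]
          rw [h5]
          split_ifs with h6
          · rw [SS_apply, a.ze b z h1, zero_smul, zero_add]
          · rw [map_zero, smul_zero]
        · rw [a.ze c z h2, zero_smul]
          split_ifs
          · rw [SS_apply, a.ze b z h1, a.ze c z h2, zero_smul, zero_smul, add_zero]
          · rw [map_zero]
    exact congrArg (fun f : Y →ₗ[K] Y => f u) key
  · intro u v
    rw [SS_apply, SS_apply, map_add, LinearMap.add_apply, map_smul, map_smul, map_add, map_smul,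
      map_smul, LinearMap.smul_apply, LinearMap.smul_apply, smul_eq_mul, smul_eq_mul, smul_eq_mul,
      smul_eq_mul, h.skew u (e c), h.skew u (e b)]
    ring

theorem Adp.tr_SS (a : Adp ω P st e lab) (b c : Fin n ⊕ Fin n) (i : I) :
    tr P (SS ω (e b) (e c)) i = (if lab c = i then ω (e b) (e c) else 0) +
      (if lab b = i then ω (e c) (e b) else 0) := by
  unfold tr
  rw [trace_eq (e := e)]
  have h1 : ∀ x, e.repr ((SS ω (e b) (e c) ∘ₗ P i) (e x)) x =
      (if c = x then (if lab c = i then ω (e b) (e c) else 0) else 0) +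
      (if b = x then (if lab b = i then ω (e c) (e b) else 0) else 0) := by
    intro x
    rw [LinearMap.comp_apply, a.P]
    by_cases hx : lab x = i
    · rw [if_pos hx, SS_apply, map_add, map_smul, map_smul, Finsupp.add_apply, Finsupp.smul_apply,
        Finsupp.smul_apply, Basis.repr_self, Basis.repr_self, Finsupp.single_apply,
        Finsupp.single_apply, smul_eq_mul, smul_eq_mul]
      congr 1
      · by_cases h2 : c = x
        · rw [if_pos h2, if_pos h2, h2, if_pos hx, mul_one]
        · rw [if_neg h2, if_neg h2, mul_zero]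
      · by_cases h2 : b = x
        · rw [if_pos h2, if_pos h2, h2, if_pos hx, mul_one]
        · rw [if_neg h2, if_neg h2, mul_zero]
    · rw [if_neg hx, map_zero, map_zero, Finsupp.zero_apply]
      have h3 : (if c = x then (if lab c = i then ω (e b) (e c) else 0) else 0) = 0 := by
        split_ifs with h4 h5
        · rw [h4] at h5
          exact absurd h5 hx
        · rfl
        · rfl
      have h3' : (if b = x then (if lab b = i then ω (e c) (e b) else 0) else 0) = 0 := by
        split_ifs with h4 h5
        · rw [h4] at h5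
          exact absurd h5 hx
        · rfl
        · rfl
      rw [h3, h3', add_zero]
  rw [Finset.sum_congr rfl (fun x _ => h1 x), Finset.sum_add_distrib, Finset.sum_ite_eq,
    Finset.sum_ite_eq, if_pos (Finset.mem_univ _), if_pos (Finset.mem_univ _)]

/-- The values of a form on the basis vectors. -/
def evE (e : Basis (Fin n ⊕ Fin n) K Y) :
    MultilinearMap K (fun _ : κ => Y) K →ₗ[K] ((κ → Fin n ⊕ Fin n) → K) where
  toFun φ := fun J => φ (fun k => e (J k))
  map_add' _ _ := rfl
  map_smul' _ _ := rfl

theorem evE_apply (φ : MultilinearMap K (fun _ : κ => Y) K) (J : κ → Fin n ⊕ Fin n) :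
    evE e φ J = φ fun k => e (J k) := rfl

theorem evE_inj : Function.Injective (evE (κ := κ) e) := by
  intro φ ψ h
  exact Basis.ext_multilinear (fun _ => e) fun J => congrFun h J

/-- The antisymmetric function of the pairings. -/
def jj (ω : Y →ₗ[K] Y →ₗ[K] K) (e : Basis (Fin n ⊕ Fin n) K Y) : Fin n ⊕ Fin n → K :=
  fun x => ω (e x) (e x.swap)

theorem Adp.JJ (a : Adp ω P st e lab) (x y : Fin n ⊕ Fin n) :
    JJ Sum.swap (jj ω e) x y = ω (e x) (e y) := by
  unfold Pool.Agent.H204R3.SP.JJ jj
  split_ifs with h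
  · rw [h]
  · exact (a.ze x y h).symm

theorem Adp.elemX (a : Adp ω P st e lab) (b c : Fin n ⊕ Fin n)
    (φ : MultilinearMap K (fun _ : κ => Y) K) (J : κ → Fin n ⊕ Fin n) :
    elemX Sum.swap (jj ω e) b c (evE e φ) J = act φ (SS ω (e b) (e c)) (fun k => e (J k)) := by
  unfold Y90.elemX act
  refine Finset.sum_congr rfl fun k _ => ?_
  rw [a.JJ, a.JJ, SS_apply, MultilinearMap.map_update_add, MultilinearMap.map_update_smul,
    MultilinearMap.map_update_smul, smul_eq_mul, smul_eq_mul, evE_apply, evE_apply]
  have h1 : ∀ x : Fin n ⊕ Fin n, (fun l => e (Function.update J k x l)) =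
      Function.update (fun l => e (J l)) k (e x) := by
    intro x
    funext l
    by_cases hl : l = k
    · subst hl
      rw [Function.update_self, Function.update_self]
    · rw [Function.update_of_ne hl, Function.update_of_ne hl]
  rw [h1, h1]

theorem Adp.type (a : Adp ω P st e lab) {φ : MultilinearMap K (fun _ : κ => Y) K} {t : κ → I}
    (ht : OfType P φ t) (J : κ → Fin n ⊕ Fin n) (hJ : evE e φ J ≠ 0) (k : κ) : lab (J k) = t k := by
  by_contra hk
  apply hJ
  rw [evE_apply, ← ht]
  refine φ.map_coord_zero k ?_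
  rw [a.P, if_neg hk]

/-- The number of variables with a given basis vector. -/
def nb (J : κ → Fin n ⊕ Fin n) (x : Fin n ⊕ Fin n) : ℕ :=
  (Finset.univ.filter fun k => J k = x).card

theorem Adp.act_diag (h : Dat ω P st) (a : Adp ω P st e lab) (x : Fin n ⊕ Fin n)
    (φ : MultilinearMap K (fun _ : κ => Y) K) (J : κ → Fin n ⊕ Fin n) :
    act φ (SS ω (e x) (e x.swap)) (fun k => e (J k)) =
      jj ω e x * ((nb J x.swap : K) - nb J x) * evE e φ J := by
  unfold act
  have hne : x ≠ x.swap := by
    intro h'
    apply a.ne x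
    rw [← h', h.alt]
  have h1 : ∀ k, φ (Function.update (fun k => e (J k)) k (SS ω (e x) (e x.swap) (e (J k)))) =
      (jj ω e x * evE e φ J) * ((if J k = x.swap then 1 else 0) - (if J k = x then 1 else 0)) := by
    intro k
    have h2 : SS ω (e x) (e x.swap) (e (J k)) =
        (jj ω e x * ((if J k = x.swap then 1 else 0) - (if J k = x then 1 else 0))) •
          e (J k) := by
      rw [SS_apply]
      by_cases h3 : J k = x
      · have h4 : J k ≠ x.swap := by rw [h3]; exact hne
        rw [if_pos h3, if_neg h4, h3, h.alt, zero_smul, zero_add, h.skew]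
        unfold jj
        congr 1
        ring
      · rw [if_neg h3, a.ze x.swap (J k) (by rw [Sum.swap_swap]; exact h3), zero_smul, add_zero]
        by_cases h4 : J k = x.swap
        · rw [if_pos h4, h4]
          unfold jj
          congr 1
          ring
        · rw [if_neg h4, a.ze x (J k) h4, zero_smul, sub_zero, mul_zero, zero_smul]
    rw [h2, MultilinearMap.map_update_smul, Function.update_eq_self, smul_eq_mul, evE_apply]
    ring
  rw [Finset.sum_congr rfl (fun k _ => h1 k), ← Finset.mul_sum, Finset.sum_sub_distrib,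
    Finset.sum_boole, Finset.sum_boole]
  unfold nb
  ring

theorem Adp.dm_ne (a : Adp ω P st e lab) (x : Fin n ⊕ Fin n) :
    CC.dm P (lab x) ≠ 0 := by
  rw [a.dm, Nat.cast_ne_zero, Finset.card_ne_zero]
  exact ⟨x, by simp⟩

/-- The sum over the weights. -/
theorem half_sum (f : I → K) (hf : ∀ i, f (st i) = -f i) (hst : ∀ i, st (st i) = i)
    (a : I → ℤ) (ha : ∀ i, a (st i) = -a i) :
    (1 / 2) * ∑ i, f i * (a i : K) = ∑ q : (Σ i, Fin (a i).toNat), f q.1 := by
  have h1 : ∑ q : (Σ i, Fin (a i).toNat), f q.1 = ∑ i, f i * ((a i).toNat : K) := by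
    rw [Fintype.sum_sigma]
    refine Finset.sum_congr rfl fun i _ => ?_
    change ∑ _y : Fin (a i).toNat, f i = _
    rw [Finset.sum_const, Finset.card_univ, Fintype.card_fin, nsmul_eq_mul, mul_comm]
  have h2 : ∑ i, f i * ((-a i).toNat : K) = -∑ i, f i * ((a i).toNat : K) := by
    rw [← Finset.sum_neg_distrib]
    refine Finset.sum_equiv (⟨st, st, hst, hst⟩ : I ≃ I) (fun _ => by simp) fun i _ => ?_
    change _ = -(f (st i) * ((a (st i)).toNat : K))
    rw [hf, ha]
    ring
  have h3 : ∀ i, (a i : K) = ((a i).toNat : K) - ((-a i).toNat : K) := by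
    intro i
    have h4 : a i = ((a i).toNat : ℤ) - ((-a i).toNat : ℤ) := by omega
    have h5 := congrArg (fun x : ℤ => (x : K)) h4
    push_cast at h5
    exact h5
  rw [h1]
  have h6 : ∑ i, f i * (a i : K) = ∑ i, f i * ((a i).toNat : K) -
      ∑ i, f i * ((-a i).toNat : K) := by
    rw [← Finset.sum_sub_distrib]
    refine Finset.sum_congr rfl fun i _ => ?_
    rw [← mul_sub, ← h3]
  rw [h6, h2]
  ring

/-- **The weights** of a nonzero form of type `t` which is killed by the operators of trace zero on
the pieces. -/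
theorem Dat.exists_wt (h : Dat ω P st) {φ : MultilinearMap K (fun _ : κ => Y) K} {t : κ → I}
    (ht : OfType P φ t)
    (hφ : ∀ X, Good ω P X → (∀ i, tr P X i = 0) → ∀ v, act φ X v = 0) (h0 : φ ≠ 0) :
    ∃ a : I → ℤ, (∀ i, a (st i) = -a i) ∧ (∀ i, P i = 0 → a i = 0) ∧
      (∀ i, dm P i * (a i : K) = (cn t i : K) - cn t (st i)) ∧
      ∀ X, Good ω P X → ∀ v, act φ X v = (∑ q : (Σ i, Fin (a i).toNat), tr P X q.1) * φ v := by
  obtain ⟨n, e, lab, a⟩ := h.exists_adp
  obtain ⟨J, hJ⟩ : ∃ J, evE e φ J ≠ 0 := by
    by_contra hcon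
    push Not at hcon
    apply h0
    apply evE_inj (e := e)
    rw [map_zero]
    exact funext hcon
  have key : ∀ x, ((cn t (lab x) : K) - cn t (st (lab x))) =
      dm P (lab x) * ((nb J x : K) - nb J x.swap) := by
    intro x
    have h1 := a.act_diag h x φ J
    rw [h.act_eq ht hφ (a.good_SS h rfl), evE_apply] at h1
    have h2 : ∑ i, (tr P (SS ω (e x) (e x.swap)) i / dm P i) * ((cn t i : K) - cn t (st i)) =
        -2 * (jj ω e x / dm P (lab x)) * ((cn t (lab x) : K) - cn t (st (lab x))) := by
      have h3 : ∀ i, (tr P (SS ω (e x) (e x.swap)) i / dm P i) * ((cn t i : K) - cn t (st i)) =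
          (if lab x.swap = i then jj ω e x / dm P (lab x) *
            ((cn t (st (lab x)) : K) - cn t (lab x)) else 0) +
          (if lab x = i then -(jj ω e x / dm P (lab x)) *
            ((cn t (lab x) : K) - cn t (st (lab x))) else 0) := by
        intro i
        rw [a.tr_SS, add_div, add_mul]
        congr 1
        · by_cases h4 : lab x.swap = i
          · rw [if_pos h4, if_pos h4, ← h4, a.st, h.inv, h.dm_st]
            rfl
          · rw [if_neg h4, if_neg h4, zero_div, zero_mul]
        · by_cases h4 : lab x = i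
          · rw [if_pos h4, if_pos h4, ← h4, h.skew, neg_div]
            rfl
          · rw [if_neg h4, if_neg h4, zero_div, zero_mul]
      rw [Finset.sum_congr rfl (fun i _ => h3 i), Finset.sum_add_distrib, Finset.sum_ite_eq,
        Finset.sum_ite_eq, if_pos (Finset.mem_univ _), if_pos (Finset.mem_univ _)]
      ring
    rw [h2] at h1
    have h4 : (jj ω e x / dm P (lab x) * ((cn t (lab x) : K) - cn t (st (lab x))) -
        jj ω e x * ((nb J x : K) - nb J x.swap)) * φ (fun k => e (J k)) = 0 := by
      linear_combination -h1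
    have h5 := sub_eq_zero.1 ((mul_eq_zero.1 h4).resolve_right hJ)
    have h6 : jj ω e x ≠ 0 := a.ne x
    have h7 := a.dm_ne x
    field_simp at h5
    exact h5
  have hz : ∀ i, ∃ z : ℤ, dm P i * (z : K) = (cn t i : K) - cn t (st i) ∧
      (P i = 0 → z = 0) := by
    intro i
    by_cases hi : ∃ x, lab x = i
    · obtain ⟨x, rfl⟩ := hi
      refine ⟨(nb J x : ℤ) - nb J x.swap, ?_, fun h1 => ?_⟩
      · rw [key]
        push_cast
        ring
      · exfalso
        have h2 := a.P (lab x) x
        rw [h1, LinearMap.zero_apply, if_pos rfl] at h2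
        exact e.ne_zero x h2.symm
    · push Not at hi
      have h1 : ∀ j, (∀ y, lab y ≠ j) → cn t j = 0 := by
        intro j hj
        unfold cn
        rw [Finset.card_eq_zero, Finset.filter_eq_empty_iff]
        intro k _ hk
        exact hj (J k) (by rw [a.type ht J hJ k, hk])
      refine ⟨0, ?_, fun _ => rfl⟩
      rw [h1 i hi, h1 (st i) (fun y hy => hi y.swap (by rw [a.st, hy, h.inv]))]
      simp
  choose z hz hz0 using hz
  have hz' : ∀ i, z (st i) = -z i := by
    intro i
    by_cases h1 : P i = 0
    · have h2 : dm P (st i) = 0 := by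
        rw [h.dm_st]
        unfold dm
        rw [h1, map_zero]
      rw [hz0 i h1, hz0 (st i) (h.eq_zero h2), neg_zero]
    · have h1' : dm P i ≠ 0 := fun h2 => h1 (h.eq_zero h2)
      have h2 := hz i
      have h3 := hz (st i)
      rw [h.inv, h.dm_st] at h3
      have h4 : dm P i * ((z (st i) : K) + z i) = 0 := by linear_combination h3 + h2
      have h5 := (mul_eq_zero.1 h4).resolve_left h1'
      have h6 : ((z (st i) + z i : ℤ) : K) = 0 := by
        push_cast
        exact h5
      have h7 := Int.cast_eq_zero.1 h6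
      omega
  refine ⟨z, hz', hz0, hz, fun X hX v => ?_⟩
  rw [h.act_eq ht hφ hX, ← half_sum (tr P X) (h.tr_st hX) h.inv z hz']
  congr 2
  refine Finset.sum_congr rfl fun i _ => ?_
  rw [← hz i]
  by_cases h1 : dm P i = 0
  · have h2 : z i = 0 := hz0 i (h.eq_zero h1)
    rw [h1, h2]
    simp
  · field_simp

/-- A bilinear form as a multilinear form. -/
def bil (b : Y →ₗ[K] Y →ₗ[K] K) : MultilinearMap K (fun _ : Fin 2 => Y) K where
  toFun v := b (v 0) (v 1)
  map_update_add' := by
    intro _ v k x y
    fin_cases k <;> simp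
  map_update_smul' := by
    intro _ v k c x
    fin_cases k <;> simp

theorem bil_apply (b : Y →ₗ[K] Y →ₗ[K] K) (v : Fin 2 → Y) : bil b v = b (v 0) (v 1) := rfl

section pd

variable (N : ∀ (κ : Type) [Finite κ], Submodule K (MultilinearMap K (fun _ : κ => Y) K))
  (hN : Clo N) (hpair : ∀ i, bil (ω ∘ₗ P i) ∈ N (Fin 2))

include hN hpair in
/-- The products of pairings and determinants belong to the system. -/
theorem Adp.PD_mem (a : Adp ω P st e lab) {S : Type} [Fintype S] (C : S → I)
    (hdet : ∃ Ψ ∈ N (Σ q, Mem lab (C q)), ∀ v, Ψ v = ∏ q, Matrix.det (Matrix.of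
      fun y y' : Mem lab (C q) => e.coord y'.1 (v ⟨q, y⟩))) :
    Y90.PD κ lab Sum.swap (jj ω e) C ⊆ (N κ).map (evE e) := by
  classical
  rintro _ ⟨m, S0, e2, c, rfl⟩
  obtain ⟨D, hD, hD'⟩ := hdet
  let B : (S0 ⊕ Unit) → Type := Sum.elim (fun _ => Fin 2) (fun _ => Σ q, Mem lab (C q))
  have hBf : ∀ a, Finite (B a) := by
    rintro (s | x)
    · exact inferInstanceAs (Finite (Fin 2))
    · exact inferInstanceAs (Finite (Σ q, Mem lab (C q)))
  let ψ : ∀ a, MultilinearMap K (fun _ : B a => Y) K := fun a =>
    match a with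
    | Sum.inl s => bil (ω ∘ₗ P (c s))
    | Sum.inr _ => D
  have hψ : ∀ a, ψ a ∈ N (B a) := by
    rintro (s | x)
    · exact hpair _
    · exact hD
  let eB : (Σ a, B a) ≃ κ :=
    (Equiv.sumSigmaDistrib B).trans ((Equiv.sumCongr (Equiv.sigmaEquivProd S0 (Fin 2))
      (Equiv.uniqueSigma (fun _ : Unit => Σ q, Mem lab (C q)))).trans e2)
  obtain ⟨Ψ, hΨ, hΨ'⟩ := hN.exists_fam B ψ hψ eB
  refine ⟨Ψ, hΨ, ?_⟩
  funext J
  rw [evE_apply, hΨ', Fintype.prod_sum_type]
  congr 1
  · refine Finset.prod_congr rfl fun s _ => ?_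
    change ω (P (c s) (e (J (e2 (Sum.inl (s, 0)))))) (e (J (e2 (Sum.inl (s, 1))))) = _
    rw [a.P]
    split_ifs with h
    · exact (a.JJ _ _).symm
    · rw [map_zero, LinearMap.zero_apply]
  · rw [Fintype.prod_unique]
    change D (fun k => e (J (e2 (Sum.inr k)))) = _
    rw [hD']
    refine Finset.prod_congr rfl fun q _ => ?_
    congr 1
    ext y y'
    rw [Matrix.of_apply, Matrix.of_apply, Basis.coord_apply, Basis.repr_self,
      Finsupp.single_apply]

include hN hpair in
/-- **The first fundamental theorem**: a form of type `t` which is killed by the operators of trace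
zero on the pieces belongs to each system which contains the pairings and the determinants of the
weights of `φ`. -/
theorem Dat.fft (h : Dat ω P st) (b : Adp ω P st e lab)
    {φ : MultilinearMap K (fun _ : κ => Y) K} {t : κ → I}
    (ht : OfType P φ t) (a : I → ℤ) (ha : ∀ i, a (st i) = -a i)
    (hφ : ∀ X, Good ω P X → ∀ v, act φ X v = (∑ q : (Σ i, Fin (a i).toNat), tr P X q.1) * φ v)
    (hdet : ∃ Ψ ∈ N (Σ q : (Σ i, Fin (a i).toNat), Mem lab q.1), ∀ v, Ψ v = ∏ q, Matrix.det
      (Matrix.of fun y y' : Mem lab q.1 => e.coord y'.1 (v ⟨q, y⟩))) :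
    φ ∈ N κ := by
  classical
  have hF : evE e φ ∈ Submodule.span K (Y90.PD κ lab Sum.swap (jj ω e)
      (fun q : (Σ i, Fin (a i).toNat) => q.1)) := by
    refine sl_fft (jj := jj ω e) (Cs := fun q => st q.1) (fun x => Sum.swap_swap x) (fun x => ?_) b.ne
      (fun x y h' => ?_) (fun q : (Σ i, Fin (a i).toNat) => q.1) (fun q y => ?_)
      (fun q q' h' => ?_) (t := t) (fun L hL k => b.type ht L hL k) (fun x y hxy L => ?_)
    · unfold jj
      rw [Sum.swap_swap, h.skew]
    · rw [b.st, b.st, h']
    · rw [b.st, y.2]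
    · have h1 := q.2.2
      have h2 := q'.2.2
      have h3 := ha q.1
      rw [h'] at h3
      omega
    · rw [b.elemX, hφ _ (b.good_SS h hxy), ← neg_mul, evE_apply]
      congr 1
      rw [← Finset.sum_neg_distrib]
      refine Finset.sum_congr rfl fun q _ => ?_
      rw [b.tr_SS]
      unfold mu
      rw [neg_add]
      have h5 : ∀ x y : Fin n ⊕ Fin n, (if lab y = q.1 then ω (e x) (e y) else 0) =
          -(if lab y = q.1 ∧ x = y.swap then jj ω e y else 0) := by
        intro x y
        unfold jj
        by_cases h6 : lab y = q.1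
        · by_cases h7 : x = y.swap
          · rw [if_pos h6, if_pos ⟨h6, h7⟩, h7, h.skew]
          · rw [if_pos h6, if_neg (fun h8 => h7 h8.2), neg_zero, h.skew,
              b.ze y x h7, neg_zero]
        · rw [if_neg h6, if_neg (fun h8 => h6 h8.1), neg_zero]
      rw [h5 x y, h5 y x]
      ring
  have h2 := Submodule.span_le.2 (b.PD_mem N hN hpair (κ := κ)
    (fun q : (Σ i, Fin (a i).toNat) => q.1) hdet) hF
  obtain ⟨ψ, hψ, hψF⟩ := h2
  rw [← evE_inj hψF]
  exact hψ

end pd

end

end Pool.Agent.L5helper73.CC
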