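import Mathlib
import Pool.Agent.L5helper73.CC.A2

/-!
# Forms killed by a product of special linear and symplectic Lie algebras, III

The decomposition into types, and the theorem for all forms.
-/

set_option linter.unusedSectionVars false

namespace Pool.Agent.L5helper73.CC

open Module Finset Pool.Agent.H204R3.SP Pool.Agent.H204R3.GP Pool.Agent.Y90

noncomputable section

variable {K : Type*} [Field K] [CharZero K] {Y : Type*} [AddCommGroup Y] [Module K Y]
  [FiniteDimensional K Y] {I : Type} [Fintype I] [DecidableEq I]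
  {ω : Y →ₗ[K] Y →ₗ[K] K} {P : I → Y →ₗ[K] Y} {st : I → I}
  {κ : Type} [Fintype κ] [DecidableEq κ]

/-- The component of type `t` of a form. -/
def cmp (P : I → Y →ₗ[K] Y) (φ : MultilinearMap K (fun _ : κ => Y) K) (t : κ → I) :
    MultilinearMap K (fun _ : κ => Y) K :=
  φ.compLinearMap fun k => P (t k)

theorem cmp_apply (φ : MultilinearMap K (fun _ : κ => Y) K) (t : κ → I) (v : κ → Y) :
    cmp P φ t v = φ fun k => P (t k) (v k) := rfl

theorem Dat.cmp_type (h : Dat ω P st) (φ : MultilinearMap K (fun _ : κ => Y) K) (t : κ → I) :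
    OfType P (cmp P φ t) t := by
  intro v
  rw [cmp_apply, cmp_apply]
  congr 1
  funext k
  rw [h.id]

theorem Dat.sum_cmp (h : Dat ω P st) (φ : MultilinearMap K (fun _ : κ => Y) K) :
    φ = ∑ t : κ → I, cmp P φ t := by
  refine MultilinearMap.ext fun v => ?_
  rw [_root_.sum_apply]
  have h2 : v = fun k => ∑ i, P i (v k) := by
    funext k
    exact (h.sum (v k)).symm
  conv_lhs => rw [h2]
  rw [MultilinearMap.map_sum]
  rfl

theorem act_cmp {X : Y →ₗ[K] Y} (hX : Good ω P X) (φ : MultilinearMap K (fun _ : κ => Y) K)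
    (t : κ → I) (v : κ → Y) : act (cmp P φ t) X v = act φ X (fun k => P (t k) (v k)) := by
  unfold act
  refine Finset.sum_congr rfl fun k _ => ?_
  rw [cmp_apply]
  congr 1
  funext l
  by_cases hl : l = k
  · subst hl
    rw [Function.update_self, Function.update_self, hX.com]
  · rw [Function.update_of_ne hl, Function.update_of_ne hl]

/-- **The core theorem.** A form which is killed by all operators which preserve the pieces, are
skew and have trace zero on each piece belongs to each system of spaces of forms which is closed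
under products, contains the pairings and contains the determinants of the weights which occur. -/
theorem Dat.core (h : Dat ω P st)
    (N : ∀ (κ : Type) [Finite κ], Submodule K (MultilinearMap K (fun _ : κ => Y) K))
    (hN : Clo N) (hpair : ∀ i, bil (ω ∘ₗ P i) ∈ N (Fin 2))
    {φ : MultilinearMap K (fun _ : κ => Y) K}
    (hφ : ∀ X, Good ω P X → (∀ i, tr P X i = 0) → ∀ v, act φ X v = 0)
    (hdet : ∀ (t : κ → I) (a : I → ℤ), cmp P φ t ≠ 0 → (∀ i, a (st i) = -a i) →
      (∀ i, P i = 0 → a i = 0) → (∀ i, dm P i * (a i : K) = (cn t i : K) - cn t (st i)) →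
      (∀ X, Good ω P X → ∀ v, act (cmp P φ t) X v =
        (∑ q : (Σ i, Fin (a i).toNat), tr P X q.1) * cmp P φ t v) →
      ∀ (n : ℕ) (e : Basis (Fin n ⊕ Fin n) K Y) (lab : Fin n ⊕ Fin n → I), Adp ω P st e lab →
        ∃ Ψ ∈ N (Σ q : (Σ i, Fin (a i).toNat), Mem lab q.1), ∀ v, Ψ v = ∏ q, Matrix.det
          (Matrix.of fun y y' : Mem lab q.1 => e.coord y'.1 (v ⟨q, y⟩))) :
    φ ∈ N κ := by
  rw [h.sum_cmp φ]
  refine Submodule.sum_mem _ fun t _ => ?_
  by_cases h0 : cmp P φ t = 0
  · rw [h0]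
    exact Submodule.zero_mem _
  have hφt : ∀ X, Good ω P X → (∀ i, tr P X i = 0) → ∀ v, act (cmp P φ t) X v = 0 := by
    intro X hX hX' v
    rw [act_cmp hX, hφ X hX hX']
  obtain ⟨a, ha, ha0, ha1, ha2⟩ := h.exists_wt (h.cmp_type φ t) hφt h0
  obtain ⟨n, e, lab, b⟩ := h.exists_adp
  exact h.fft N hN hpair b (h.cmp_type φ t) a ha ha2 (hdet t a h0 ha ha0 ha1 ha2 n e lab b)

/-- Products of determinants as multilinear forms. -/
theorem exists_prodDet {S : Type} [Fintype S] (ι : S → Type) [∀ q, Fintype (ι q)]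
    [∀ q, DecidableEq (ι q)] (f : ∀ q, ι q → Y →ₗ[K] K) :
    ∃ Ψ : MultilinearMap K (fun _ : (Σ q, ι q) => Y) K, ∀ v, Ψ v = ∏ q, Matrix.det
      (Matrix.of fun y y' : ι q => f q y' (v ⟨q, y⟩)) := by
  let N : ∀ (κ : Type) [Finite κ], Submodule K (MultilinearMap K (fun _ : κ => Y) K) := fun _ => ⊤
  have hN : Clo N := ⟨fun _ _ _ _ => trivial, fun _ _ _ _ _ _ _ _ _ _ _ _ _ => trivial⟩
  let ψ : ∀ q, MultilinearMap K (fun _ : ι q => Y) K := fun q =>
    (Matrix.detRowAlternating (n := ι q) (R := K)).toMultilinearMap.compLinearMap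
      fun _ => LinearMap.pi fun y' : ι q => f q y'
  obtain ⟨Ψ, -, hΨ⟩ := hN.exists_fam ι ψ (fun _ => trivial) (Equiv.refl _)
  exact ⟨Ψ, fun v => hΨ v⟩

end

end Pool.Agent.L5helper73.CC
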